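import Pool.Agent.Helper87.HQ.St

/-!
# Project HQ, module B2: primitive element with explicit data
-/

set_option autoImplicit false

namespace Pool.Agent.Helper47.HQ

open Pool.Agent.Helper87.HQ
open Set MvPolynomial

theorem hB2 : StB2 := by
  intro σ _ K _ _ x n y hx hy
  classical
  have := Fintype.ofFinite σ
  let R := MvPolynomial (Fin n) ℝ
  have hinj : Function.Injective (aeval y : R →ₐ[ℝ] K) :=
    algebraicIndependent_iff_injective_aeval.1 hy.1
  let alg : Algebra R K := ((aeval y : R →ₐ[ℝ] K) : R →+* K).toAlgebra
  have hmap : ∀ r : R, algebraMap R K r = aeval y r := fun _ => rfl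
  have hev : ∀ (w : K) (g : Polynomial R), ev2 y w g = Polynomial.aeval w g := fun _ _ => rfl
  have : FaithfulSMul R K := (faithfulSMul_iff_algebraMap_injective R K).2 hinj
  have : IsScalarTower ℝ R K := IsScalarTower.of_algebraMap_eq fun r => by
    rw [hmap]
    exact ((aeval y : R →ₐ[ℝ] K).commutes r).symm
  let L := FractionRing R
  let algL : Algebra L K := FractionRing.liftAlgebra R K
  have : IsScalarTower R L K := FractionRing.isScalarTower_liftAlgebra R K
  have : IsScalarTower ℝ L K := IsScalarTower.to₁₃₄ ℝ R L K
  have : CharZero L := charZero_of_injective_algebraMap (algebraMap ℝ L).injective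
  have hRalg : Algebra.IsAlgebraic R K := by
    refine ⟨fun k => ?_⟩
    obtain ⟨p, hp0, hp⟩ := hy.isAlgebraic.isAlgebraic k
    refine ⟨p.map (hy.1.aevalEquiv.symm : Algebra.adjoin ℝ (range y) →+* R), ?_, ?_⟩
    · intro h
      apply hp0
      refine Polynomial.map_injective _ ?_ (h.trans (Polynomial.map_zero _).symm)
      exact hy.1.aevalEquiv.symm.injective
    · rw [Polynomial.aeval_def, Polynomial.eval₂_map, ← hp, Polynomial.aeval_def]
      congr 1
      ext a
      exact hy.1.aeval_repr a
  have hLalg : Algebra.IsAlgebraic L K :=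
    (IsFractionRing.comap_isAlgebraic_iff (A := R) (K := L) (C := K)).1 hRalg
  have hadj : IntermediateField.adjoin L (range x) = ⊤ := by
    rw [eq_top_iff]
    intro k _
    have hk : k ∈ IntermediateField.adjoin ℝ (range x) := by
      rw [hx]
      trivial
    have hle : IntermediateField.adjoin ℝ (range x) ≤
        (IntermediateField.adjoin L (range x)).restrictScalars ℝ := by
      rw [IntermediateField.adjoin_le_iff]
      exact IntermediateField.subset_adjoin _ _
    exact hle hk
  have hfd : FiniteDimensional L K := by
    have h1 : FiniteDimensional L (IntermediateField.adjoin L (range x)) :=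
      IntermediateField.finiteDimensional_adjoin
        (fun z _ => (Algebra.IsAlgebraic.isAlgebraic z).isIntegral)
    rw [hadj] at h1
    exact Module.Finite.equiv (IntermediateField.topEquiv (F := L) (E := K)).toLinearEquiv
  obtain ⟨w₀, hw₀⟩ := Field.exists_primitive_element L K
  obtain ⟨r, hr0, hint⟩ := (Algebra.IsAlgebraic.isAlgebraic (R := R) w₀).exists_integral_multiple
  set w : K := r • w₀ with hw
  have hrL : algebraMap R L r ≠ 0 := by
    intro h
    exact hr0 (IsFractionRing.injective R L (h.trans (map_zero _).symm))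
  have hwtop : IntermediateField.adjoin L {w} = ⊤ := by
    rw [eq_top_iff, ← hw₀, IntermediateField.adjoin_simple_le_iff]
    have h1 : w₀ = (algebraMap R L r)⁻¹ • w := by
      rw [hw, ← algebraMap_smul L r w₀, inv_smul_smul₀ hrL]
    rw [h1]
    exact IntermediateField.smul_mem _ (IntermediateField.mem_adjoin_simple_self L w)
  have hx' : ∀ i, ∃ (b : R) (q : Polynomial R), b ≠ 0 ∧
      Polynomial.aeval w q = algebraMap R K b * x i := by
    intro i
    have h1 : x i ∈ (IntermediateField.adjoin L {w}).toSubalgebra := by
      rw [hwtop]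
      trivial
    rw [IntermediateField.adjoin_simple_toSubalgebra_of_isAlgebraic
      (Algebra.IsAlgebraic.isAlgebraic w), Algebra.adjoin_singleton_eq_range_aeval] at h1
    obtain ⟨p, hp⟩ := h1
    obtain ⟨b, hb₁, hb₂⟩ := IsLocalization.integerNormalization_spec (nonZeroDivisors R) p
    refine ⟨b, IsLocalization.integerNormalization (nonZeroDivisors R) p,
      nonZeroDivisors.ne_zero hb₁, ?_⟩
    rw [← Polynomial.aeval_map_algebraMap L, hb₂]
    have h2 : (b • p : Polynomial L) = (algebraMap R L b) • p := by
      rw [algebraMap_smul]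
    rw [h2, map_smul, Algebra.smul_def, ← IsScalarTower.algebraMap_apply R L K]
    congr 1
  choose b q hb hq using hx'
  refine ⟨w, minpoly R w, ∏ i, b i, fun i => Polynomial.C (∏ j ∈ Finset.univ.erase i, b j) * q i,
    ?_, ?_, ?_, ?_, ?_⟩
  · rw [hev]
    exact minpoly.aeval R w
  · have hsep : (minpoly L w).Separable := Algebra.IsSeparable.isSeparable L w
    have hmin : minpoly L w = (minpoly R w).map (algebraMap R L) :=
      minpoly.isIntegrallyClosed_eq_field_fractions' L hint
    have h1 := hsep.aeval_derivative_ne_zero (minpoly.aeval L w)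
    rw [hmin, Polynomial.derivative_map, Polynomial.aeval_map_algebraMap] at h1
    rw [hev]
    exact h1
  · intro h
    have h1 : (∏ i, b i) = 0 := hinj (h.trans (map_zero _).symm)
    rw [Finset.prod_eq_zero_iff] at h1
    obtain ⟨i, _, hi⟩ := h1
    exact hb i hi
  · intro i
    rw [hev, map_mul, Polynomial.aeval_C, hq, ← mul_assoc, ← map_mul,
      Finset.prod_erase_mul _ _ (Finset.mem_univ i)]
    rfl
  · intro g hg
    rw [hev] at hg
    exact minpoly.isIntegrallyClosed_dvd hint hg

end Pool.Agent.Helper47.HQ
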